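import Pool.Agent.Helper47.EP.Goals

/-!
# Project EP (MP_5b9a11_al), packet WV: Witt vectors
-/

set_option autoImplicit false

namespace Pool.Agent.Helper14.EP.WV

open IsLocalRing

theorem t : Pool.Agent.Helper47.EP.S_WV := by
  intro p _ F _ _ _
  have : PerfectField F := inferInstance
  have : PerfectRing F p := PerfectField.toPerfectRing p
  have hm : maximalIdeal (WittVector p F) = Ideal.span {(p : WittVector p F)} :=
    Irreducible.maximalIdeal_eq (WittVector.irreducible p)
  have hc : IsAdicComplete (maximalIdeal (WittVector p F)) (WittVector p F) := by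
    rw [hm]
    infer_instance
  have hz : CharZero (WittVector p F) := by
    obtain ⟨q, hq⟩ := CharP.exists (WittVector p F)
    rcases CharP.char_is_prime_or_zero (WittVector p F) q with h | h
    · exfalso
      have h1 : ((q : ℕ) : WittVector p F) = 0 := CharP.cast_eq_zero _ q
      have h2 : ((q : ℕ) : F) = 0 := by
        have h3 := congrArg (WittVector.constantCoeff (p := p) (R := F)) h1
        rwa [map_natCast, map_zero] at h3
      have h4 : p ∣ q := (CharP.cast_eq_zero_iff F p q).1 h2
      have h5 : p = q := (Nat.prime_dvd_prime_iff_eq Fact.out h).1 h4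
      rw [← h5] at h1
      exact (WittVector.irreducible p (k := F)).ne_zero h1
    · rw [h] at hq
      exact CharP.charP_to_charZero _
  refine ⟨WittVector p F, inferInstance, inferInstance, inferInstance, hc, hz, hm, ?_⟩
  exact ⟨(Ideal.quotEquivOfEq hm).trans WittVector.quotientPEquiv⟩

end Pool.Agent.Helper14.EP.WV
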